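import Pool.Agent.H14.ENR.Stmts4

/-! Board enr, row SAB: sections of abelian subgroups. -/

set_option autoImplicit false

namespace Pool.ENR

open Pool.Agent.H81.ENG Pool.Agent.H55.NEU

/-- The elements of `p`-power order of the abelian subgroup `A`. -/
def SAB_D {T : Type} [Group T] (p : ℕ) (A : Subgroup T)
    (hA : ∀ x ∈ A, ∀ y ∈ A, x * y = y * x) : Subgroup T where
  carrier := {x | x ∈ A ∧ ∃ k : ℕ, x ^ (p ^ k) = 1}
  one_mem' := ⟨one_mem _, 0, one_pow _⟩
  mul_mem' := by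
    rintro x y ⟨hx, k, hk⟩ ⟨hy, l, hl⟩
    refine ⟨mul_mem hx hy, k + l, ?_⟩
    have hc : Commute x y := hA x hx y hy
    rw [hc.mul_pow, pow_add, pow_mul, hk, one_pow, one_mul, mul_comm (p ^ k), pow_mul, hl, one_pow]
  inv_mem' := by
    rintro x ⟨hx, k, hk⟩
    exact ⟨inv_mem hx, k, by rw [inv_pow, hk, inv_one]⟩

theorem SAB_mem {T : Type} [Group T] (p : ℕ) (A : Subgroup T)
    (hA : ∀ x ∈ A, ∀ y ∈ A, x * y = y * x) (x : T) :
    x ∈ SAB_D p A hA ↔ x ∈ A ∧ ∃ k : ℕ, x ^ (p ^ k) = 1 := Iff.rfl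

theorem sab_thm : SABStmt := by
  intro T _ _ p m σ A hp hA hσ ⟨x, hx, hx'⟩
  have hle : SAB_D p A hA ≤ A := fun y hy => hy.1
  refine ⟨A, SAB_D p A hA, hσ, ?_, hle, ?_, ?_, ?_, x, hx, ?_⟩
  · intro y
    rw [SAB_mem, SAB_mem, ← hσ]
    refine and_congr_right fun _ => exists_congr fun k => ?_
    rw [← map_pow, map_eq_one_iff σ σ.injective]
  · intro g hg y hy
    rw [hA g hg y hy.1, mul_assoc, mul_inv_cancel, mul_one]
    exact hy
  · intro hdvd
    have : Fact p.Prime := ⟨hp⟩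
    have hN : ((SAB_D p A hA).subgroupOf A).Normal := by
      refine ⟨fun n hn g => ?_⟩
      have h1 : g * n * g⁻¹ = n := by
        apply Subtype.ext
        show (g : T) * (n : T) * (g : T)⁻¹ = n
        rw [hA g g.2 n n.2, mul_assoc, mul_inv_cancel, mul_one]
      rw [h1]
      exact hn
    have hcard : p ∣ Nat.card (A ⧸ (SAB_D p A hA).subgroupOf A) := hdvd
    obtain ⟨q, hq⟩ := exists_prime_orderOf_dvd_card' p hcard
    obtain ⟨y, rfl⟩ := QuotientGroup.mk_surjective q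
    have h1 : ((y : A ⧸ (SAB_D p A hA).subgroupOf A)) ^ p = 1 := by
      have h0 := pow_orderOf_eq_one (y : A ⧸ (SAB_D p A hA).subgroupOf A)
      rwa [hq] at h0
    rw [← QuotientGroup.mk_pow, QuotientGroup.eq_one_iff, Subgroup.mem_subgroupOf] at h1
    obtain ⟨-, k, hk⟩ := h1
    have h2 : y ∈ (SAB_D p A hA).subgroupOf A := by
      rw [Subgroup.mem_subgroupOf]
      refine ⟨y.2, k + 1, ?_⟩
      rw [pow_succ', pow_mul, ← hk]
      rfl
    rw [← QuotientGroup.eq_one_iff] at h2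
    rw [h2, orderOf_one] at hq
    exact hp.one_lt.ne hq
  · have : Finite (A ⧸ (SAB_D p A hA).subgroupOf A) := Quotient.finite _
    exact (Nat.card_pos (α := A ⧸ (SAB_D p A hA).subgroupOf A)).ne'
  · rintro ⟨-, k, hk⟩
    exact hx' k hk

end Pool.ENR
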