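import Pool.Agent.H36.ENR.Stmts2

/-! Board enr, row TR3: in characteristic 2 without primitive cube roots of unity, the Engel period
of `PSL(2, q)` is divisible by 3. -/

set_option autoImplicit false

namespace Pool.ENR

open Pool.Agent.H81.ENG Pool.Agent.H55.NEU

variable {F : Type} [Field F]

/-- The trace. -/
def tr3t (X : SL2 F) : F := X 0 0 + X 1 1

/-- The matrix `Y`. -/
def tr3Y (t : F) (h2 : (2 : F) = 0) : SL2 F := mk2 0 1 1 t (by linear_combination -h2)

/-- The step. -/
def tr3f (Y : SL2 F) (X : SL2 F) : SL2 F := X⁻¹ * Y⁻¹ * X * Y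

theorem tr3_step (t : F) (h2 : (2 : F) = 0) (X : SL2 F)
    (hX : X 0 1 + X 1 0 + t * X 0 0 = t) :
    let X' := tr3f (tr3Y t h2) X
    X' 0 1 + X' 1 0 + t * X' 0 0 = t ∧
      tr3t X' = tr3t X * tr3t X + t * t * tr3t X := by
  intro X'
  have hd := sl_det X
  have hX' : X' = tr3f (tr3Y t h2) (mk2 (X 0 0) (X 0 1) (X 1 0) (X 1 1) hd) := by
    rw [← eq_mk2 X]
  unfold tr3t
  generalize X 0 0 = a at *
  generalize X 0 1 = b at *
  generalize X 1 0 = c at *
  generalize X 1 1 = d at *
  have e : X' = mk2 ((d * t + b) * b - d * d) ((d * t + b) * (a + b * t) - d * (c + d * t))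
      ((-c * t - a) * b + c * d) ((-c * t - a) * (a + b * t) + c * (c + d * t)) (by
        linear_combination (2 * d * t - 2 * d * t) * h2 + (a * d - b * c + 1) * hd) := by
    rw [hX']
    unfold tr3f tr3Y
    rw [mk2_inv, mk2_inv, mk2_mul, mk2_mul, mk2_mul]
    apply mk2_congr <;> ring
  rw [e]
  simp only [mk2_00, mk2_01, mk2_10, mk2_11]
  constructor
  · linear_combination t * hd + (b * d * t ^ 2 + b ^ 2 * t - d ^ 2 * t) * h2
  · linear_combination (b + c + t * a - t + t * (a + d)) * hX + t * t * hd +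
      ((-2 * a * b * t) + (-2 * a * c * t) + (-1 * a * d) + (-1 * a * d * t^2) + a * t^2 +
        (-1 * a^2) + (-1 * a^2 * t^2) + (-1 * b * c) + b * t + c * t + (-1 * d^2)) * h2

theorem tr3_iter (t : F) (h2 : (2 : F) = 0) (X : SL2 F)
    (hX : X 0 1 + X 1 0 + t * X 0 0 = t) (n : ℕ) :
    ((tr3f (tr3Y t h2))^[n] X) 0 1 + ((tr3f (tr3Y t h2))^[n] X) 1 0 +
      t * ((tr3f (tr3Y t h2))^[n] X) 0 0 = t ∧
      tr3t ((tr3f (tr3Y t h2))^[n] X) = (fun z : F => z * z + t * t * z)^[n] (tr3t X) := by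
  induction n with
  | zero => exact ⟨hX, rfl⟩
  | succ n ih =>
    have h := tr3_step t h2 _ ih.1
    rw [Function.iterate_succ_apply', Function.iterate_succ_apply', ← ih.2]
    exact h

theorem tr3_pr (Y X : SL2 F) (n : ℕ) :
    (fun z : PS F => z⁻¹ * (pr Y)⁻¹ * z * pr Y)^[n] (pr X) = pr ((tr3f Y)^[n] X) := by
  induction n with
  | zero => rfl
  | succ n ih =>
    rw [Function.iterate_succ_apply', Function.iterate_succ_apply', ih]
    unfold tr3f
    rw [map_mul, map_mul, map_mul, map_inv, map_inv]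

theorem tr3_two (h2 : (2 : F) = 0) {M N : SL2 F} (h : pr M = pr N) : tr3t M = tr3t N := by
  obtain ⟨r, hr, hh⟩ := pr_eq_iff.1 h
  have h1 : (r - 1) * (r - 1) = 0 := by linear_combination hr + (1 - r) * h2
  have h3 : r = 1 := by
    have := mul_self_eq_zero.1 h1
    linear_combination this
  unfold tr3t
  rw [hh, hh, h3, one_mul, one_mul]

/-- A map with a cycle of length three. -/
theorem tr3_cyc (A : F → F) (x y z : F) (hxy : A x = y) (hyz : A y = z) (hzx : A z = x)
    (n1 : x ≠ y) (n2 : y ≠ z) (n3 : z ≠ x) (r d : ℕ) (h : A^[r] x = A^[r + d] x) : 3 ∣ d := by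
  have h3 : A^[3] x = x := by
    rw [show (3 : ℕ) = 2 + 1 from rfl, Function.iterate_succ_apply', Function.iterate_succ_apply',
      Function.iterate_one, hxy, hyz, hzx]
  have key : ∀ n : ℕ, (n % 3 = 0 ∧ A^[n] x = x) ∨ (n % 3 = 1 ∧ A^[n] x = y) ∨
      (n % 3 = 2 ∧ A^[n] x = z) := by
    intro n
    induction n with
    | zero => exact Or.inl ⟨rfl, rfl⟩
    | succ n ih =>
      rw [Function.iterate_succ_apply']
      rcases ih with ⟨a, b⟩ | ⟨a, b⟩ | ⟨a, b⟩
      · exact Or.inr (Or.inl ⟨by omega, by rw [b, hxy]⟩)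
      · exact Or.inr (Or.inr ⟨by omega, by rw [b, hyz]⟩)
      · exact Or.inl ⟨by omega, by rw [b, hzx]⟩
  have k1 := key r
  have k2 := key (r + d)
  rcases k1 with ⟨a, b⟩ | ⟨a, b⟩ | ⟨a, b⟩
  · rcases k2 with ⟨a', b'⟩ | ⟨a', b'⟩ | ⟨a', b'⟩
    · omega
    · rw [b, b'] at h
      exact absurd h n1
    · rw [b, b'] at h
      exact absurd h.symm n3
  · rcases k2 with ⟨a', b'⟩ | ⟨a', b'⟩ | ⟨a', b'⟩
    · rw [b, b'] at h
      exact absurd h.symm n1
    · omega
    · rw [b, b'] at h
      exact absurd h n2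
  · rcases k2 with ⟨a', b'⟩ | ⟨a', b'⟩ | ⟨a', b'⟩
    · rw [b, b'] at h
      exact absurd h n3
    · rw [b, b'] at h
      exact absurd h.symm n2
    · omega

theorem tr3_exists [Finite F] (h : 4 ≤ Nat.card F) : ∃ w : F, w ≠ 0 ∧ w ≠ 1 := by
  classical
  by_contra hc
  push Not at hc
  have : Fintype F := Fintype.ofFinite F
  rw [Nat.card_eq_fintype_card] at h
  have h1 : (Finset.univ : Finset F) ⊆ {0, 1} := by
    intro w _
    by_cases hw : w = 0
    · simp [hw]
    · simp [hc w hw]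
  have h3 := (Finset.card_le_card h1).trans Finset.card_le_two
  rw [Finset.card_univ] at h3
  omega

/-- A starting matrix. -/
theorem tr3_start [Finite F] (h2 : (2 : F) = 0) (s t : F) :
    ∃ X : SL2 F, tr3t X = s ∧ X 0 1 + X 1 0 + t * X 0 0 = t := by
  have hsq : ∀ a : F, ∃ b : F, a = b * b := by
    have hc : ringChar F = 2 :=
      CharP.ringChar_of_prime_eq_zero Nat.prime_two (by exact_mod_cast h2)
    intro a
    exact FiniteField.isSquare_of_char_two hc a
  have main : ∀ x z : F, x * (s + x) - (t + x * t + z) * z = 1 →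
      ∃ X : SL2 F, tr3t X = s ∧ X 0 1 + X 1 0 + t * X 0 0 = t := by
    intro x z h
    refine ⟨mk2 x (t + x * t + z) z (s + x) h, ?_, ?_⟩
    · unfold tr3t
      simp only [mk2_00, mk2_11]
      linear_combination x * h2
    · simp only [mk2_00, mk2_01, mk2_10]
      linear_combination (z + t * x) * h2
  by_cases ht : t = 0
  · refine main 0 1 ?_
    rw [ht]
    linear_combination -h2
  · obtain ⟨x, hx⟩ := hsq ((s / t) ^ 2 + t * (s / t) + 1)
    refine main x (s / t) ?_
    have h1 : t * (s / t) = s := by field_simp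
    linear_combination -hx - (x + 2 * 0) * h1 + 0 * h2

theorem tr3_thm : TR3Stmt := by
  intro F _ _ h2 h4 hw d hL
  obtain ⟨w, hw0, hw1⟩ := tr3_exists h4
  have hv : w * w + w ≠ 0 := by
    intro h
    have h1 : w * (w + 1) = 0 := by linear_combination h
    rcases mul_eq_zero.1 h1 with h | h
    · exact hw0 h
    · exact hw1 (by linear_combination h - h2)
  obtain ⟨s, hs⟩ : ∃ s : F, s * (w * w + w) = w * w + w + 1 := by
    refine ⟨1 + (w * w + w)⁻¹, ?_⟩
    rw [add_mul, inv_mul_cancel₀ hv, one_mul]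
  have hs0 : s ≠ 0 := by
    intro h
    rw [h, zero_mul] at hs
    exact hw w hs.symm
  obtain ⟨t, ht⟩ : ∃ t : F, s + w = t * t := by
    have hc : ringChar F = 2 :=
      CharP.ringChar_of_prime_eq_zero Nat.prime_two (by exact_mod_cast h2)
    exact FiniteField.isSquare_of_char_two hc (s + w)
  obtain ⟨X, hX1, hX2⟩ := tr3_start h2 s t
  obtain ⟨r, hr⟩ := hL
  have h5 := hr (pr X) (pr (tr3Y t h2))
  rw [tr3_pr, tr3_pr] at h5
  have h6 := tr3_two h2 h5
  rw [(tr3_iter t h2 X hX2 r).2, (tr3_iter t h2 X hX2 (r + d)).2, hX1] at h6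
  refine tr3_cyc _ s (s * w) (s * (1 + w)) ?_ ?_ ?_ ?_ ?_ ?_ r d h6
  · show s * s + t * t * s = s * w
    rw [← ht]
    linear_combination s * s * h2
  · show s * w * (s * w) + t * t * (s * w) = s * (1 + w)
    rw [← ht]
    linear_combination s * hs + s * (w * w) * h2
  · show s * (1 + w) * (s * (1 + w)) + t * t * (s * (1 + w)) = s
    rw [← ht]
    linear_combination s * hs + (s * s * (1 + w) + s * (w * w + w)) * h2
  · intro h
    have h1 : s * (w - 1) = 0 := by linear_combination -h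
    rcases mul_eq_zero.1 h1 with h | h
    · exact hs0 h
    · exact hw1 (by linear_combination h)
  · intro h
    exact hs0 (by linear_combination -h)
  · intro h
    have h1 : s * w = 0 := by linear_combination h
    rcases mul_eq_zero.1 h1 with h | h
    · exact hs0 h
    · exact hw0 h

end Pool.ENR
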