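import Pool.Agent.H29.ENR.Stmts7
import Pool.Agent.H49.ENR.FXC

/-!
# Board enr, row GSA (model: row FXC of helper49)
-/

set_option autoImplicit false

namespace Pool.ENR

open Pool.Agent.H81.ENG

/-- The normalising element `y` with `σ y ∈ y P`, acting on `P` as `h`. -/
theorem GSA_core (T : Type) [Group T] [Finite T] (p N : ℕ) [Fact p.Prime] (σ : MulAut T)
    (P : Sylow p T) (hP : ∀ x, x ∈ P ↔ σ x ∈ P) (hab : ∀ x ∈ P, ∀ y ∈ P, x * y = y * x)
    (hσ : σ ^ (p ^ N) = 1) (lam : ℕ) (hlam : ∀ x ∈ P, σ x = x ^ lam) (h : T)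
    (hh : ∀ x, x ∈ P ↔ h * x * h⁻¹ ∈ P) :
    ∃ y : T, (∀ s ∈ P, y * s * y⁻¹ = h * s * h⁻¹) ∧ y⁻¹ * σ y ∈ P := by
  classical
  have hp : p.Prime := Fact.out
  -- sigma preserves the set of these elements
  have hinv : ∀ y : T, (∀ s ∈ P, y * s * y⁻¹ = h * s * h⁻¹) →
      ∀ s ∈ P, σ y * s * (σ y)⁻¹ = h * s * h⁻¹ := by
    intro y hy s' hs'
    have hs : σ.symm s' ∈ P := by
      rw [hP, MulEquiv.apply_symm_apply]
      exact hs'
    have e1 : σ (σ.symm s') = s' := MulEquiv.apply_symm_apply σ s'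
    calc σ y * s' * (σ y)⁻¹ = σ (y * σ.symm s' * y⁻¹) := by rw [map_mul, map_mul, map_inv, e1]
      _ = σ (h * σ.symm s' * h⁻¹) := by rw [hy _ hs]
      _ = (h * σ.symm s' * h⁻¹) ^ lam := hlam _ ((hh _).1 hs)
      _ = h * (σ.symm s') ^ lam * h⁻¹ := conj_pow
      _ = h * s' * h⁻¹ := by rw [← hlam _ hs, e1]
  have hmem : ∀ c : T, c ∈ Subgroup.centralizer (P : Set T) →
      ∀ s ∈ P, (h * c) * s * (h * c)⁻¹ = h * s * h⁻¹ := by
    intro c hc s hs
    rw [Subgroup.mem_centralizer_iff] at hc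
    have h1 := hc s hs
    calc (h * c) * s * (h * c)⁻¹ = h * (c * s) * c⁻¹ * h⁻¹ := by group
      _ = h * (s * c) * c⁻¹ * h⁻¹ := by rw [h1]
      _ = h * s * h⁻¹ := by group
  have hback : ∀ y : T, (∀ s ∈ P, y * s * y⁻¹ = h * s * h⁻¹) →
      h⁻¹ * y ∈ Subgroup.centralizer (P : Set T) := by
    intro y hy
    rw [Subgroup.mem_centralizer_iff]
    intro s hs
    have h1 := hy s hs
    calc s * (h⁻¹ * y) = h⁻¹ * (h * s * h⁻¹) * y := by group
      _ = h⁻¹ * (y * s * y⁻¹) * y := by rw [h1]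
      _ = h⁻¹ * y * s := by group
  let C : Subgroup T := Subgroup.centralizer (P : Set T)
  let g : C → C := fun c => ⟨h⁻¹ * σ (h * c), hback _ (hinv _ (hmem _ c.2))⟩
  have hgv : ∀ c : C, ((g c : C) : T) = h⁻¹ * σ (h * c) := fun c => rfl
  have hiter : ∀ (m : ℕ) (c : C), ((g^[m] c : C) : T) = h⁻¹ * (σ ^ m) (h * c) := by
    intro m c
    induction m with
    | zero => simp
    | succ m ih =>
      rw [Function.iterate_succ_apply', hgv, ih, mul_inv_cancel_left, pow_succ', MulAut.mul_apply]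
  have hPC : (P : Subgroup T) ≤ C := by
    intro x hx
    show x ∈ Subgroup.centralizer (P : Set T)
    rw [Subgroup.mem_centralizer_iff]
    intro s hs
    exact hab s hs x hx
  let K : Subgroup C := (P : Subgroup T).subgroupOf C
  have hrel : ∀ c d : C, c⁻¹ * d ∈ K → (g c)⁻¹ * g d ∈ K := by
    intro c d hcd
    rw [Subgroup.mem_subgroupOf] at hcd ⊢
    have h1 : (((g c)⁻¹ * g d : C) : T) = σ (((c⁻¹ * d : C) : T)) := by
      rw [Subgroup.coe_mul, Subgroup.coe_inv, hgv, hgv, Subgroup.coe_mul, Subgroup.coe_inv]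
      simp only [map_mul, map_inv]
      group
    rw [h1]
    exact (hP _).1 hcd
  let f : C ⧸ K → C ⧸ K := Quotient.map' g (by
    intro c d hcd
    rw [QuotientGroup.leftRel_apply] at hcd ⊢
    exact hrel c d hcd)
  have hf : ∀ c : C, f (QuotientGroup.mk c) = QuotientGroup.mk (g c) := fun c => rfl
  have hfi : ∀ (m : ℕ) (c : C), f^[m] (QuotientGroup.mk c) = QuotientGroup.mk (g^[m] c) := by
    intro m c
    induction m with
    | zero => rfl
    | succ m ih => rw [Function.iterate_succ_apply', ih, hf, Function.iterate_succ_apply']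
  have hcardC : ¬ p ∣ Nat.card (C ⧸ K) := by
    intro hd
    have h1 : Nat.card (C ⧸ K) = (P : Subgroup T).relIndex C := rfl
    rw [h1] at hd
    exact P.not_dvd_index (hd.trans (Subgroup.relIndex_dvd_index_of_le hPC))
  obtain ⟨q, hq⟩ := FXCaux.fix_of_iter p N hp hcardC f (by
    intro q
    induction q using QuotientGroup.induction_on with
    | H c =>
      rw [hfi]
      apply congrArg
      apply Subtype.ext
      rw [hiter, hσ, MulAut.one_apply, inv_mul_cancel_left])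
  induction q using QuotientGroup.induction_on with
  | H c =>
    rw [hf, eq_comm, QuotientGroup.eq, Subgroup.mem_subgroupOf, Subgroup.coe_mul, Subgroup.coe_inv,
      hgv] at hq
    refine ⟨h * c, hmem _ c.2, ?_⟩
    have h2 : (h * (c : T))⁻¹ * σ (h * c) = (c : T)⁻¹ * (h⁻¹ * σ (h * c)) := by group
    rw [h2]
    exact hq

/-- A `p`-element which normalises a Sylow subgroup is in it. -/
theorem GSA_mem (T : Type) [Group T] [Finite T] (p : ℕ) [Fact p.Prime] (P : Sylow p T) (v : T)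
    (i : ℕ) (hv : v ^ (p ^ i) = 1) (hn : ∀ x, x ∈ P ↔ v * x * v⁻¹ ∈ P) : v ∈ P := by
  have h1 : IsPGroup p (Subgroup.zpowers v) := by
    rintro ⟨w, hw⟩
    obtain ⟨j, rfl⟩ := Subgroup.mem_zpowers_iff.1 hw
    refine ⟨i, ?_⟩
    apply Subtype.ext
    show (v ^ j) ^ (p ^ i) = 1
    rw [← zpow_natCast, ← zpow_mul, mul_comm, zpow_mul, zpow_natCast, hv, one_zpow]
  have h2 := h1.inf_normalizer_sylow P
  have h3 : v ∈ Subgroup.zpowers v ⊓ Subgroup.normalizer (P : Set T) :=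
    ⟨Subgroup.mem_zpowers v, hn⟩
  rw [h2] at h3
  exact h3.2

theorem gsa_thm (hFXY : FXYStmt) (hBTR : BTRStmt) : GSAStmt := by
  intro T _ _ p N m _ σ hS hnc hab hσ hyp
  classical
  have hp : p.Prime := Fact.out
  have hsyl : ¬ p ∣ Nat.card (Sylow p T) := by
    intro hd
    have h2 := card_sylow_modEq_one p T
    have h3 : Nat.card (Sylow p T) ≡ 0 [MOD p] := (Nat.modEq_zero_iff_dvd).mpr hd
    have h4 : 1 ≡ 0 [MOD p] := h2.symm.trans h3
    have h5 : p ∣ 1 := (Nat.modEq_zero_iff_dvd).mp h4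
    exact hp.one_lt.ne' (Nat.dvd_one.mp h5)
  obtain ⟨P, hP⟩ := hFXY T p p N σ hp hp hσ hsyl
  obtain ⟨⟨lam, hlam⟩, x₀, hx₀, hz⟩ := hyp P hP
  obtain ⟨h, m', -, -, hh, hhz⟩ := hBTR T p P (x₀ ^ (p ^ m)) hS hnc (hab P)
    ((P : Subgroup T).pow_mem hx₀ _) hz
  obtain ⟨y, hy, hyσ⟩ := GSA_core T p N σ P hP (hab P) hσ lam hlam h hh
  have ho : orderOf y ≠ 0 := (orderOf_pos y).ne'
  obtain ⟨i, k, hk, hok⟩ := Nat.exists_eq_pow_mul_and_not_dvd ho p hp.ne_one
  have hk0 : k ≠ 0 := by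
    rintro rfl
    exact hk (dvd_zero p)
  have hcop : Nat.Coprime k (p ^ i) :=
    Nat.Coprime.pow_right i ((Nat.Prime.coprime_iff_not_dvd hp).2 hk).symm
  obtain ⟨w, hw1, hw2⟩ := Nat.chineseRemainder hcop 1 0
  have hw0 : p ^ i ∣ w := (Nat.modEq_zero_iff_dvd).1 hw2
  -- the p-part
  have hyo : ∀ j : ℤ, ((p ^ i * k : ℕ) : ℤ) ∣ j → y ^ j = 1 := by
    intro j hj
    rw [← hok] at hj
    exact orderOf_dvd_iff_zpow_eq_one.1 hj
  have hkw : (k : ℤ) ∣ (w : ℤ) - 1 := by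
    have := (Nat.modEq_iff_dvd.1 hw1.symm)
    exact_mod_cast this
  have hnorm_y : ∀ x, x ∈ P ↔ y * x * y⁻¹ ∈ P := by
    intro x
    constructor
    · intro hx
      rw [hy x hx]
      exact (hh x).1 hx
    · intro hx
      have h1 : h⁻¹ * (y * x * y⁻¹) * h ∈ P := by
        rw [hh]
        have : h * (h⁻¹ * (y * x * y⁻¹) * h) * h⁻¹ = y * x * y⁻¹ := by group
        rw [this]
        exact hx
      have h2 := hy _ h1
      have h3 : h * (h⁻¹ * (y * x * y⁻¹) * h) * h⁻¹ = y * x * y⁻¹ := by group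
      rw [h3] at h2
      have h4 : h⁻¹ * (y * x * y⁻¹) * h = x := by
        have h5 := mul_left_cancel (mul_right_cancel h2)
        exact h5
      rw [h4] at h1
      exact h1
  have hyN : y ∈ Subgroup.normalizer (P : Set T) := hnorm_y
  have hvP : y ^ ((w : ℤ) - 1) ∈ P := by
    apply GSA_mem T p P _ i
    · rw [← zpow_natCast, ← zpow_mul]
      apply hyo
      rw [mul_comm, Nat.cast_mul]
      exact mul_dvd_mul_right hkw _
    · exact Subgroup.zpow_mem _ hyN _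
  set v := y ^ ((w : ℤ) - 1) with hv
  have hn : y ^ w = v * y := by
    rw [hv, ← zpow_natCast, ← zpow_add_one, sub_add_cancel]
  have hact : ∀ s ∈ P, (v * y) * s * (v * y)⁻¹ = h * s * h⁻¹ := by
    intro s hs
    have h1 : y * s * y⁻¹ ∈ P := (hnorm_y s).1 hs
    have h2 := hab P v hvP _ h1
    calc (v * y) * s * (v * y)⁻¹ = v * (y * s * y⁻¹) * v⁻¹ := by group
      _ = (y * s * y⁻¹) * v * v⁻¹ := by rw [h2]
      _ = y * s * y⁻¹ := by group
      _ = h * s * h⁻¹ := hy s hs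
  refine ⟨P, y ^ w, k, lam, P.isPGroup', hab P, hlam, ?_, ?_, hk, ?_, x₀, hx₀, ?_⟩
  · exact Subgroup.pow_mem _ hyN w
  · rw [← pow_mul]
    have h1 : orderOf y ∣ w * k := by
      rw [hok]
      exact Nat.mul_dvd_mul_right hw0 k
    exact orderOf_dvd_iff_pow_eq_one.1 h1
  · rw [hn, map_mul]
    have h1 : y * (y⁻¹ * σ y) * y⁻¹ ∈ P := (hnorm_y _).1 hyσ
    have h2 : σ v * σ y * (v * y)⁻¹ = σ v * (y * (y⁻¹ * σ y) * y⁻¹) * v⁻¹ := by group
    rw [h2]
    exact (P : Subgroup T).mul_mem ((P : Subgroup T).mul_mem ((hP v).1 hvP) h1)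
      ((P : Subgroup T).inv_mem hvP)
  · intro hc
    rw [Nat.add_sub_cancel, hn] at hc
    apply hhz
    have h1 := hact _ ((P : Subgroup T).pow_mem hx₀ (p ^ m))
    rw [hc, mul_assoc, mul_inv_cancel, mul_one] at h1
    calc h * x₀ ^ p ^ m = (h * x₀ ^ p ^ m * h⁻¹) * h := by group
      _ = x₀ ^ p ^ m * h := by rw [← h1]

end Pool.ENR
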